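import Mathlib
import Pool.Agent.H90.KrB

namespace Pool.Agent.Results.MP_e07d6f_an.Q1NotHereditary

open Pool.Agent.H90.Kp

theorem result (s : Bool) : ∃ (E : Type) (_ : NormedAddCommGroup E) (_ : NormedSpace ℂ E),
    CompleteSpace E ∧ ¬Hered E s :=
  let ⟨E, i, j, h1, h2⟩ := ex_not s
  ⟨E, i, j, h1, fun h => h2 h.self⟩

end Pool.Agent.Results.MP_e07d6f_an.Q1NotHereditary
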